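import Pool.Agent.Helper66.PD.Stmts

/-! Row PWL: path-width of the nested Kelly poset. -/

set_option autoImplicit false

namespace Pool.Agent.Helper66.PD

theorem pwl_act {k n : ℕ} (u : U k n) : ∃ c, Act c u := by
  cases u with
  | X a => exact ⟨a, rfl⟩
  | Y a => exact ⟨a, rfl⟩
  | R j a => exact ⟨a, fun _ _ => rfl, Or.inl rfl⟩
  | L j a => exact ⟨a, fun _ _ => rfl, Or.inl rfl⟩

theorem st_PWL (h1 : ST_BCD) (h2 : ST_CVX) (h3 : ST_EDG) : ST_PWL := by
  classical
  intro k n
  refine ⟨n ^ k, fun i => Finset.univ.filter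
    (fun u : Q k n => Act (finFunctionFinEquiv.symm i) u.1), ?_, ?_, ?_, ?_⟩
  · intro v
    obtain ⟨c, hc⟩ := pwl_act v.1
    refine ⟨finFunctionFinEquiv c, ?_⟩
    rw [Finset.mem_filter]
    refine ⟨Finset.mem_univ _, ?_⟩
    rw [Equiv.symm_apply_apply]
    exact hc
  · intro u v huv
    have key : ∃ c, Act c u.1 ∧ Act c v.1 := by
      rw [cov, SimpleGraph.fromRel_adj] at huv
      rcases huv.2 with h | h
      · exact h3 k n u v h
      · obtain ⟨c, hc1, hc2⟩ := h3 k n v u h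
        exact ⟨c, hc2, hc1⟩
    obtain ⟨c, hc1, hc2⟩ := key
    refine ⟨finFunctionFinEquiv c, ?_, ?_⟩
    · rw [Finset.mem_filter, Equiv.symm_apply_apply]
      exact ⟨Finset.mem_univ _, hc1⟩
    · rw [Finset.mem_filter, Equiv.symm_apply_apply]
      exact ⟨Finset.mem_univ _, hc2⟩
  · intro i j l v hij hjl hi hl
    rw [Finset.mem_filter] at hi hl ⊢
    refine ⟨Finset.mem_univ _, ?_⟩
    refine h2 k n v.1 (finFunctionFinEquiv.symm i) (finFunctionFinEquiv.symm j)
      (finFunctionFinEquiv.symm l) ?_ ?_ hi.2 hl.2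
    · rw [Equiv.apply_symm_apply, Equiv.apply_symm_apply]; exact hij
    · rw [Equiv.apply_symm_apply, Equiv.apply_symm_apply]; exact hjl
  · intro i
    refine h1 k n (finFunctionFinEquiv.symm i) _ ?_
    intro u hu
    exact (Finset.mem_filter.mp hu).2

end Pool.Agent.Helper66.PD
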